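import Mathlib
import Pool.Agent.Lib.JO.Trf
import Pool.Agent.Lib.JO.V.Fin

/-!
# A nonseparable Banach space with a finite Banach-Mazur diameter, in a model of set theory

There is a structure `(M, E)` for the language of set theory which satisfies all the axioms of ZFC and the
statement that there are a nonseparable closed linear subspace `X` of real `ℓ_∞` and a real number `k` such that
for all norms `n`, `n'` on `X` equivalent to the sup norm there is a linear bijection `T : X → X` with
`n(f) ≤ n'(T f) ≤ k n(f)` for all `f ∈ X`. In this model `d(Y, Z) ≤ k` for all Banach spaces `Y`, `Z` isomorphic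
to `X`.

Definitions: `Fm`, `sat` (first-order formulas, satisfaction) in `Lib/BVM/FmDef.lean`, `IsZFC` in
`Lib/BVM/ZFCDef.lean`, `Sub`, `IsUPair`, `IsPair`, `Rel`, `IsInductive`, `IsOmega` in `Lib/MP_11349d_lc/Stmt.lean`,
everything else (`NegJO` and its parts) in `Lib/JO/Stmt.lean`.
-/

namespace Pool.Agent.Results.MP_76005e_an.FiniteDiameterModel

open Pool.Agent.Lib.BVM Pool.Agent.JO

theorem result : ∃ (M : Type 1) (E : M → M → Prop), IsZFC E ∧ NegJO E :=
  jo partI

end Pool.Agent.Results.MP_76005e_an.FiniteDiameterModel
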