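import Mathlib
import Pool.Agent.Lib.MP_76005e_an.Cor

/-!
# Banach-Mazur diameter of nonseparable Banach spaces (MP_76005e_an, helper66)

The definitions `bmDist`, `Isomorph`, `bmDiam`, `dens`, `IsBiorthogonal`, `IsTotal`,
`IsNorming` are in `Pool/Agent/Lib/MP_76005e_an/Defs.lean`.
-/

set_option autoImplicit false

namespace Pool.Agent.Results.MP_76005e_an.LargeSystem

universe u

open Cardinal Pool.Agent.Lib.MP_76005e_an

/-- Let `X` be a nonseparable real or complex Banach space. Then `D(X) = ∞` if `X` satisfies one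
of the following conditions.

1. For some uncountable cardinal `κ` which is the density character of `X` or larger than the
   cardinality of some norming set of functionals, `X` has for every `ε > 0` an
   `ε`-biorthogonal system of cardinality `κ`, which is bounded (a requirement only if `κ` has
   countable cofinality).
2. No total set of functionals on `X` has cardinality smaller than the density character.
3. `X` is reflexive.
4. The density character of `X` is a strong limit cardinal. -/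
theorem result {𝕜 : Type} [RCLike 𝕜] {X : Type u} [NormedAddCommGroup X] [NormedSpace 𝕜 X]
    [CompleteSpace X] (hX : ¬ TopologicalSpace.SeparableSpace X)
    (h : (∃ κ : Cardinal.{u}, ℵ₀ < κ ∧
          (κ = dens X ∨ ∃ G : Set (X →L[𝕜] 𝕜), IsNorming G ∧ #G < κ) ∧
          ∀ ε : ℝ, 0 < ε → ∃ (ι : Type u) (x : ι → X) (f : ι → X →L[𝕜] 𝕜),
            #ι = κ ∧ IsBiorthogonal ε x f ∧
              (ℵ₀ < κ.ord.cof ∨ ∃ B : ℝ, ∀ i, ‖x i‖ ≤ B ∧ ‖f i‖ ≤ B)) ∨
        (∀ G : Set (X →L[𝕜] 𝕜), IsTotal G → dens X ≤ #G) ∨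
        Function.Surjective (NormedSpace.inclusionInDoubleDual 𝕜 X) ∨
        (dens X).IsStrongLimit) :
    bmDiam 𝕜 X = ⊤ := by
  have hX' : ℵ₀ < dens X := (aleph0_lt_dens_iff X).mpr hX
  rcases h with ⟨κ, hκ, hκX, hsys⟩ | h | h | h
  · have hsys' : ∀ ε : ℝ, 0 < ε → ∃ (ι : Type u) (x : ι → X) (f : ι → X →L[𝕜] 𝕜) (B : ℝ),
        #ι = κ ∧ IsBiorthogonal ε x f ∧ ∀ i, ‖x i‖ ≤ B ∧ ‖f i‖ ≤ B := by
      intro ε hε
      obtain ⟨ι, x, f, h1, h2, h3 | ⟨B, h3⟩⟩ := hsys ε hε
      · exact exists_bounded_sub hκ.le h3 h1 h2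
      · exact ⟨ι, x, f, B, h1, h2, h3⟩
    rcases hκX with rfl | ⟨G, hG, hGκ⟩
    · exact thmA hκ hsys'
    · exact thmG hκ hG hGκ hsys'
  · exact thmD hX' h
  · exact thmE hX' h
  · exact thmF hX' h

end Pool.Agent.Results.MP_76005e_an.LargeSystem
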